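import Pool.Agent.K4H87.BE.Defs

/-! `ellLt G8 = 4` -/

set_option autoImplicit false

namespace Pool.K4H87.BE

/-- the vertices which can be put in front of a path -/
def extB (q : List (Fin 8)) (v : Fin 8) : Bool :=
  match q with
  | [] => false
  | w :: _ => adj8 v w && !q.contains v

/-- the paths of the example with `k + 1` vertices -/
def lvl : ℕ → List (List (Fin 8))
  | 0 => (List.finRange 8).map (fun v => [v])
  | k + 1 => (lvl k).flatMap fun q => ((List.finRange 8).filter (extB q)).map (fun v => v :: q)

/-- all paths of the example -/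
def all8 : List (List (Fin 8)) := (List.range 8).flatMap lvl

theorem mem_lvl : ∀ (q : List (Fin 8)) (w : Fin 8), (w :: q).Nodup → (w :: q).IsChain G8.Adj →
    (w :: q) ∈ lvl q.length := by
  intro q
  induction q with
  | nil => intro w _ _; simp [lvl]
  | cons v q ih =>
    intro w h1 h2
    have h3 := ih v (List.nodup_cons.1 h1).2 (List.isChain_cons_cons.1 h2).2
    rw [List.length_cons]
    show _ ∈ (lvl q.length).flatMap _
    rw [List.mem_flatMap]
    refine ⟨v :: q, h3, ?_⟩
    rw [List.mem_map]
    refine ⟨w, ?_, rfl⟩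
    rw [List.mem_filter]
    refine ⟨List.mem_finRange _, ?_⟩
    have h4 : adj8 w v = true := (List.isChain_cons_cons.1 h2).1
    have h5 := (List.nodup_cons.1 h1).1
    show (adj8 w v && !(v :: q).contains w) = true
    rw [h4]
    simpa using h5

theorem sound_lvl : ∀ (k : ℕ) (q : List (Fin 8)), q ∈ lvl k → q.Nodup ∧ q.IsChain G8.Adj ∧
    q.length = k + 1 := by
  intro k
  induction k with
  | zero =>
    intro q hq
    simp only [lvl, List.mem_map] at hq
    obtain ⟨v, _, rfl⟩ := hq
    simp
  | succ k ih =>
    intro q hq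
    change q ∈ (lvl k).flatMap _ at hq
    rw [List.mem_flatMap] at hq
    obtain ⟨q', hq', hq⟩ := hq
    rw [List.mem_map] at hq
    obtain ⟨v, hv, rfl⟩ := hq
    rw [List.mem_filter] at hv
    obtain ⟨h1, h2, h3⟩ := ih q' hq'
    have h4 := hv.2
    cases q' with
    | nil => simp [extB] at h4
    | cons w q' =>
      simp only [extB, Bool.and_eq_true, Bool.not_eq_true'] at h4
      obtain ⟨h5, h6⟩ := h4
      refine ⟨List.nodup_cons.2 ⟨?_, h1⟩, List.isChain_cons_cons.2 ⟨h5, h2⟩, ?_⟩
      · intro h7
        have : (w :: q').contains v = true := by simpa using h7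
        rw [h6] at this
        exact absurd this (by simp)
      · rw [List.length_cons, h3]

theorem mem_all8 (p : List (Fin 8)) (h0 : p ≠ []) (h1 : p.Nodup) (h2 : p.IsChain G8.Adj) :
    p ∈ all8 ∧ p ∈ lvl (p.length - 1) ∧ p.length ≤ 8 := by
  cases p with
  | nil => exact absurd rfl h0
  | cons w q =>
    have h3 := mem_lvl q w h1 h2
    have h4 : (w :: q).length ≤ 8 := by
      have := h1.length_le_card
      simpa using this
    refine ⟨?_, by simpa using h3, h4⟩
    unfold all8
    rw [List.mem_flatMap]
    refine ⟨q.length, ?_, h3⟩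
    rw [List.mem_range]
    simpa using h4

/-- the conditions of an admissible path -/
def good (p : List (Fin 8)) : Bool :=
  match p.head?, p.getLast? with
  | some i, some j => decide (i < j) &&
      p.all (fun v => decide (v = i) || decide (v = j) || decide (v < i) || decide (j < v)) &&
      all8.all (fun q => !(decide (q.head? = some i) && decide (q.getLast? = some j) &&
        q.all (fun v => p.contains v) && !(p.all (fun v => q.contains v))))
  | _, _ => false

theorem good_of (i j : Fin 8) (p : List (Fin 8)) (h : IsAdmissible G8 i j p) : good p = true := by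
  obtain ⟨h1, ⟨h2, h3, h4, h5⟩, h6, h7⟩ := h
  unfold good
  rw [h4, h5]
  simp only [Bool.and_eq_true, decide_eq_true_eq]
  refine ⟨⟨h1, ?_⟩, ?_⟩
  · rw [List.all_eq_true]
    intro v hv
    simp only [Bool.or_eq_true, decide_eq_true_eq]
    by_cases a : v = i
    · tauto
    · by_cases b : v = j
      · tauto
      · have := h6 v hv a b
        tauto
  · rw [List.all_eq_true]
    intro q hq
    rw [Bool.not_eq_true', ← Bool.not_eq_true]
    intro hh
    simp only [Bool.and_eq_true, decide_eq_true_eq] at hh
    obtain ⟨⟨⟨a, b⟩, c⟩, d⟩ := hh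
    unfold all8 at hq
    rw [List.mem_flatMap] at hq
    obtain ⟨k, _, hq⟩ := hq
    obtain ⟨e, f, _⟩ := sound_lvl k q hq
    refine h7 q ⟨e, f, a, b⟩ ?_
    rw [Finset.ssubset_iff_subset_ne]
    constructor
    · intro x hx
      rw [List.mem_toFinset] at hx ⊢
      have := List.all_eq_true.1 c x hx
      simpa using this
    · intro he
      rw [Bool.not_eq_true', ← Bool.not_eq_true] at d
      apply d
      rw [List.all_eq_true]
      intro x hx
      have : x ∈ q.toFinset := by
        rw [he, List.mem_toFinset]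
        exact hx
      rw [List.mem_toFinset] at this
      simpa using this

theorem no_good : ∀ k ∈ [4, 5, 6, 7], ∀ p ∈ lvl k, good p = false := by
  decide +kernel

theorem adm4 : IsAdmissible G8 0 2 [0, 7, 5, 2] := by
  refine ⟨by decide, ⟨by decide, ?_, rfl, rfl⟩, by decide, ?_⟩
  · simp only [List.isChain_cons_cons, List.isChain_singleton, and_true]
    exact ⟨by decide, by decide, by decide⟩
  · intro q ⟨h1, h2, h3, h4⟩ h5
    have h0 : q ≠ [] := by
      rintro rfl
      simp at h3
    obtain ⟨h6, _, _⟩ := mem_all8 q h0 h1 h2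
    have key : ∀ q ∈ all8, q.head? = some 0 → q.getLast? = some 2 →
        (∀ v ∈ q, v ∈ ([0, 7, 5, 2] : List (Fin 8))) → ∀ v ∈ ([0, 7, 5, 2] : List (Fin 8)), v ∈ q := by
      decide +kernel
    apply h5.2
    intro x hx
    rw [List.mem_toFinset] at hx ⊢
    refine key q h6 h3 h4 (fun v hv => ?_) x hx
    have := h5.1 (List.mem_toFinset.2 hv)
    exact List.mem_toFinset.1 this

theorem ellLt_le {i j : Fin 8} {p : List (Fin 8)} (h : IsAdmissible G8 i j p) : p.length ≤ 4 := by
  by_contra hc
  have h0 : p ≠ [] := by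
    rintro rfl
    simp at hc
  obtain ⟨_, h1, h2⟩ := mem_all8 p h0 h.2.1.1 h.2.1.2.1
  have h3 := good_of i j p h
  have h4 : p.length - 1 ∈ [4, 5, 6, 7] := by
    simp only [List.mem_cons, List.not_mem_nil, or_false]
    omega
  have h5 := no_good _ h4 p h1
  rw [h3] at h5
  exact absurd h5 (by simp)

theorem ellLt_G8 : ellLt G8 = 4 := by
  unfold ellLt
  apply le_antisymm
  · refine csSup_le (Set.nonempty_of_mem (x := 4) ⟨0, 2, [0, 7, 5, 2], adm4, rfl⟩) ?_
    rintro k ⟨i, j, p, h, rfl⟩
    exact ellLt_le h
  · apply le_csSup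
    · refine ⟨4, ?_⟩
      rintro k ⟨i, j, p, h, rfl⟩
      exact ellLt_le h
    · exact ⟨0, 2, [0, 7, 5, 2], adm4, rfl⟩

end Pool.K4H87.BE
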