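import Pool.Agent.K4H87.BE.Defs

/-!
# Piece B: a monomial prime containing the initial ideal of a binomial edge ideal
-/

namespace Pool.K4H87.BE

open MvPolynomial

theorem xv_inj {n : ℕ} {i j : Fin n} : (xv i : Fin (n + n)) = xv j ↔ i = j :=
  ⟨fun h => Fin.castAdd_injective n n h, fun h => by rw [h]⟩

theorem yv_inj {n : ℕ} {i j : Fin n} : (yv i : Fin (n + n)) = yv j ↔ i = j :=
  ⟨fun h => Fin.natAdd_injective n n h, fun h => by rw [h]⟩

theorem xv_lt_yv {n : ℕ} (i j : Fin n) : (xv i : Fin (n + n)) < yv j := by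
  rw [Fin.lt_def]
  simp only [xv, yv, Fin.val_castAdd, Fin.val_natAdd]
  omega

theorem xv_ne_yv {n : ℕ} (i j : Fin n) : (xv i : Fin (n + n)) ≠ yv j := (xv_lt_yv i j).ne

theorem xv_lt_xv {n : ℕ} {i j : Fin n} : (xv i : Fin (n + n)) < xv j ↔ i < j := by
  rw [Fin.lt_def, Fin.lt_def]
  simp only [xv, Fin.val_castAdd]

theorem single_xx {n : ℕ} (i l : Fin n) :
    (Finsupp.single (xv i) 1 : Fin (n + n) →₀ ℕ) (xv l) = if i = l then 1 else 0 := by
  rw [Finsupp.single_apply]
  simp only [xv_inj]

theorem single_yy {n : ℕ} (i l : Fin n) :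
    (Finsupp.single (yv i) 1 : Fin (n + n) →₀ ℕ) (yv l) = if i = l then 1 else 0 := by
  rw [Finsupp.single_apply]
  simp only [yv_inj]

theorem single_xy {n : ℕ} (i l : Fin n) :
    (Finsupp.single (xv i) 1 : Fin (n + n) →₀ ℕ) (yv l) = 0 := by
  rw [Finsupp.single_apply, if_neg (xv_ne_yv i l)]

theorem single_yx {n : ℕ} (i l : Fin n) :
    (Finsupp.single (yv i) 1 : Fin (n + n) →₀ ℕ) (xv l) = 0 := by
  rw [Finsupp.single_apply, if_neg (xv_ne_yv l i).symm]

/-- The monomials equivalent to `m`: prime to the variables of `S`, and of the same multidegree (the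
degrees in the pairs `x_i, y_i`, and the `x`-degrees of the colours). -/
def QQ {n : ℕ} (S : Finset (Fin n)) (c : Fin n → Fin n) (m v : Fin (n + n) →₀ ℕ) : Prop :=
  (∀ i ∈ S, v (xv i) = 0 ∧ v (yv i) = 0) ∧
  (∀ i, v (xv i) + v (yv i) = m (xv i) + m (yv i)) ∧
  (∀ C, ∑ i ∈ Finset.univ.filter (fun i => c i = C), v (xv i) =
    ∑ i ∈ Finset.univ.filter (fun i => c i = C), m (xv i))

theorem QQ_swap {n : ℕ} {S : Finset (Fin n)} {c : Fin n → Fin n} {m v : Fin (n + n) →₀ ℕ}
    {i j : Fin n} (hc : i ∉ S → j ∉ S → c i = c j)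
    (h : QQ S c m (v + Finsupp.single (xv i) 1 + Finsupp.single (yv j) 1)) :
    QQ S c m (v + Finsupp.single (xv j) 1 + Finsupp.single (yv i) 1) := by
  obtain ⟨h1, h2, h3⟩ := h
  have hi : i ∉ S := by
    intro hi
    have := (h1 i hi).1
    simp only [Finsupp.add_apply, single_xx, single_yx, if_true] at this
    omega
  have hj : j ∉ S := by
    intro hj
    have := (h1 j hj).2
    simp only [Finsupp.add_apply, single_yy, single_xy, if_true] at this
    omega
  have hcc := hc hi hj
  refine ⟨?_, ?_, ?_⟩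
  · intro l hl
    have hil : i ≠ l := fun h => hi (h ▸ hl)
    have hjl : j ≠ l := fun h => hj (h ▸ hl)
    have := h1 l hl
    simp only [Finsupp.add_apply, single_xx, single_yy, single_xy, single_yx, if_neg hil,
      if_neg hjl] at this ⊢
    exact this
  · intro l
    have := h2 l
    simp only [Finsupp.add_apply, single_xx, single_yy, single_xy, single_yx] at this ⊢
    omega
  · intro C
    rw [← h3 C]
    simp only [Finsupp.add_apply, single_xx, single_yx, add_zero, Finset.sum_add_distrib,
      Finset.sum_ite_eq, Finset.mem_filter, Finset.mem_univ, true_and]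
    rw [hcc]

theorem initialIdeal_le (K : Type) [Field K] {n : ℕ} (G : SimpleGraph (Fin n))
    (S : Finset (Fin n)) (c k : Fin n → Fin n)
    (hc : ∀ i j, G.Adj i j → i ∉ S → j ∉ S → c i = c j) :
    initialIdeal (edgeIdeal K G) ≤ Ideal.span (X '' {v | (∃ i ∈ S, v = xv i ∨ v = yv i) ∨
      (∃ i, v = xv i ∧ i < k (c i)) ∨ (∃ j, v = yv j ∧ k (c j) < j)}) := by
  classical
  unfold initialIdeal
  rw [Ideal.span_le]
  rintro _ ⟨g, hg, hg0, rfl⟩
  rw [SetLike.mem_coe, mem_ideal_span_X_image]
  intro m' hm'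
  set m := (MonomialOrder.lex (σ := Fin (n + n))).degree g with hm
  have hm1 : m' = m := by
    have := support_monomial_subset hm'
    simpa using this
  subst hm1
  by_contra hcon
  push Not at hcon
  -- the linear functional
  let L : MvPolynomial (Fin (n + n)) K →ₗ[K] K :=
    (basisMonomials (Fin (n + n)) K).constr K (fun v => if QQ S c m v then (1 : K) else 0)
  have hLm : ∀ (v : Fin (n + n) →₀ ℕ) (a : K), L (monomial v a) = if QQ S c m v then a else 0 := by
    intro v a
    have h1 : (monomial v a : MvPolynomial (Fin (n + n)) K) = a • monomial v 1 := by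
      rw [smul_monomial, smul_eq_mul, mul_one]
    have h2 : L (monomial v 1) = if QQ S c m v then (1 : K) else 0 := by
      have := (basisMonomials (Fin (n + n)) K).constr_basis K
        (fun v => if QQ S c m v then (1 : K) else 0) v
      rw [coe_basisMonomials] at this
      exact this
    rw [h1, map_smul, h2, smul_eq_mul]
    split_ifs <;> simp
  have hLe : ∀ (i j : Fin n), G.Adj i j → ∀ f : MvPolynomial (Fin (n + n)) K,
      L (f * (X (xv i) * X (yv j) - X (xv j) * X (yv i))) = 0 := by
    intro i j hij f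
    induction f using MvPolynomial.induction_on' with
    | monomial v a =>
      have h1 : (monomial v a : MvPolynomial (Fin (n + n)) K) *
          (X (xv i) * X (yv j) - X (xv j) * X (yv i)) =
          monomial (v + Finsupp.single (xv i) 1 + Finsupp.single (yv j) 1) a -
          monomial (v + Finsupp.single (xv j) 1 + Finsupp.single (yv i) 1) a := by
        rw [mul_sub, ← mul_assoc, ← mul_assoc]
        simp only [X, monomial_mul, mul_one]
      have h2 : QQ S c m (v + Finsupp.single (xv i) 1 + Finsupp.single (yv j) 1) ↔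
          QQ S c m (v + Finsupp.single (xv j) 1 + Finsupp.single (yv i) 1) :=
        ⟨QQ_swap (fun h h' => hc i j hij h h'), QQ_swap (fun h h' => (hc i j hij h' h).symm)⟩
      rw [h1, map_sub, hLm, hLm]
      by_cases h3 : QQ S c m (v + Finsupp.single (xv i) 1 + Finsupp.single (yv j) 1)
      · rw [if_pos h3, if_pos (h2.1 h3), sub_self]
      · rw [if_neg h3, if_neg (fun h => h3 (h2.2 h)), sub_self]
    | add p q hp hq => rw [add_mul, map_add, hp, hq, add_zero]
  have hLJ : ∀ f ∈ edgeIdeal K G, ∀ q, L (q * f) = 0 := by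
    intro f hf
    unfold edgeIdeal at hf
    induction hf using Submodule.span_induction with
    | mem x hx =>
      obtain ⟨i, j, hij, -, rfl⟩ := hx
      exact hLe i j hij
    | zero => intro q; rw [mul_zero, map_zero]
    | add x y _ _ hx hy => intro q; rw [mul_add, map_add, hx, hy, add_zero]
    | smul a x _ hx => intro q; rw [smul_eq_mul, ← mul_assoc, hx]
  have hLg : L g = 0 := by
    have := hLJ g hg 1
    rwa [one_mul] at this
  have hLs : L g = ∑ v ∈ g.support, if QQ S c m v then coeff v g else 0 := by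
    conv_lhs => rw [g.as_sum]
    rw [map_sum]
    exact Finset.sum_congr rfl fun v _ => hLm v _
  have hmm : m ∈ g.support := (MonomialOrder.degree_mem_support_iff g).2 hg0
  have hQm : QQ S c m m := by
    refine ⟨fun i hi => ⟨?_, ?_⟩, fun _ => rfl, fun _ => rfl⟩
    · by_contra h0
      exact h0 (hcon (xv i) (Or.inl ⟨i, hi, Or.inl rfl⟩))
    · by_contra h0
      exact h0 (hcon (yv i) (Or.inl ⟨i, hi, Or.inr rfl⟩))
  -- another monomial
  obtain ⟨v, hv, hvm, hQv⟩ : ∃ v ∈ g.support, v ≠ m ∧ QQ S c m v := by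
    by_contra hno
    push Not at hno
    have h1 : ∑ v ∈ g.support, (if QQ S c m v then coeff v g else 0) = coeff m g := by
      rw [Finset.sum_eq_single_of_mem m hmm]
      · rw [if_pos hQm]
      · intro v hv hvm
        rw [if_neg (hno v hv hvm)]
    rw [← hLs, hLg] at h1
    exact (mem_support_iff.1 hmm) h1.symm
  have hlt : toLex v < toLex m := by
    have h1 := (MonomialOrder.lex (σ := Fin (n + n))).le_degree hv
    rw [MonomialOrder.lex_le_iff] at h1
    exact lt_of_le_of_ne h1 (fun h => hvm (toLex.injective h))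
  obtain ⟨a, ha1, ha2⟩ := hlt
  simp only [ofLex_toLex] at ha1 ha2
  obtain ⟨hv1, hv2, hv3⟩ := hQv
  rcases lt_or_ge a.val n with han | han
  · -- the first difference is at an `x`
    obtain ⟨i, rfl⟩ : ∃ i : Fin n, a = xv i := ⟨⟨a.val, han⟩, Fin.ext rfl⟩
    have hki : k (c i) ≤ i := by
      by_contra h0
      rw [not_le] at h0
      have := hcon (xv i) (Or.inr (Or.inl ⟨i, rfl, h0⟩))
      omega
    obtain ⟨l, hl1, hl2, hl3⟩ : ∃ l, c l = c i ∧ i < l ∧ m (xv l) < v (xv l) := by
      by_contra hno
      push Not at hno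
      have h1 : ∑ l ∈ Finset.univ.filter (fun l => c l = c i), v (xv l) <
          ∑ l ∈ Finset.univ.filter (fun l => c l = c i), m (xv l) := by
        refine Finset.sum_lt_sum ?_ ⟨i, by simp, ha2⟩
        intro l hl
        rw [Finset.mem_filter] at hl
        rcases lt_trichotomy l i with h | h | h
        · exact (ha1 (xv l) (xv_lt_xv.2 h)).le
        · rw [h]; exact ha2.le
        · exact hno l hl.2 h
      exact h1.ne (hv3 (c i))
    have h4 := hv2 l
    have hkl : l ≤ k (c l) := by
      by_contra h0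
      rw [not_le] at h0
      have := hcon (yv l) (Or.inr (Or.inr ⟨l, rfl, h0⟩))
      omega
    rw [hl1] at hkl
    exact absurd (hkl.trans hki) (not_le.2 hl2)
  · -- the first difference is at a `y`
    obtain ⟨i, rfl⟩ : ∃ i : Fin n, a = yv i :=
      ⟨⟨a.val - n, by omega⟩, Fin.ext (by simp only [yv, Fin.val_natAdd]; omega)⟩
    have h1 := ha1 (xv i) (xv_lt_yv i i)
    have h2 := hv2 i
    omega

end Pool.K4H87.BE
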