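import Pool.Agent.K4H87.BE.Defs

/-! Regularity of the symbolic powers of an ideal: lower bound (piece C for MP_641f76_ag). -/

namespace Pool.K4H87.BE

open MvPolynomial

noncomputable section

namespace PieceC

variable {K : Type} [Field K] {m : ℕ}

/-- the substitution `X_v ↦ t X_v` for the variables of `T` -/
def phi (T : Finset (Fin m)) :
    MvPolynomial (Fin m) K →+* Polynomial (MvPolynomial (Fin m) K) :=
  (aeval (R := K) fun v : Fin m => if v ∈ T then
    (Polynomial.X * Polynomial.C (X v) : Polynomial (MvPolynomial (Fin m) K))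
    else Polynomial.C (X v)).toRingHom

/-- the degree in the variables of `T` -/
def tdeg (T : Finset (Fin m)) (b : Fin m →₀ ℕ) : ℕ := ∑ v ∈ T, b v

theorem phi_monomial (T : Finset (Fin m)) (b : Fin m →₀ ℕ) (c : K) :
    phi T (monomial b c) =
      Polynomial.X ^ tdeg T b * Polynomial.C (monomial b c) := by
  unfold phi tdeg
  rw [AlgHom.toRingHom_eq_coe, RingHom.coe_coe, aeval_monomial]
  have h1 : (b.prod fun i k => (if i ∈ T then
      (Polynomial.X * Polynomial.C (X i) : Polynomial (MvPolynomial (Fin m) K))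
      else Polynomial.C (X i)) ^ k) =
      Polynomial.X ^ (∑ v ∈ T, b v) * Polynomial.C (∏ i, (X i : MvPolynomial (Fin m) K) ^ b i) := by
    rw [Finsupp.prod_fintype _ _ (by intro i; simp)]
    rw [map_prod, ← Finset.prod_pow_eq_pow_sum]
    have h2 : (∏ v ∈ T, (Polynomial.X : Polynomial (MvPolynomial (Fin m) K)) ^ b v) =
        ∏ v, if v ∈ T then (Polynomial.X : Polynomial (MvPolynomial (Fin m) K)) ^ b v else 1 := by
      rw [Finset.prod_ite_mem, Finset.univ_inter]
    rw [h2, ← Finset.prod_mul_distrib]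
    apply Finset.prod_congr rfl
    intro i _
    split_ifs with h
    · rw [mul_pow, map_pow]
    · rw [one_mul, map_pow]
  rw [h1, monomial_eq, Finsupp.prod_fintype _ _ (by intro i; simp), map_mul]
  have h3 : (algebraMap K (Polynomial (MvPolynomial (Fin m) K))) c = Polynomial.C (C c) := rfl
  rw [h3]
  ring

theorem coeff_phi (T : Finset (Fin m)) (f : MvPolynomial (Fin m) K) (j : ℕ) (b : Fin m →₀ ℕ) :
    coeff b ((phi T f).coeff j) = if tdeg T b = j then coeff b f else 0 := by
  classical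
  induction f using MvPolynomial.induction_on' with
  | monomial a c =>
    rw [phi_monomial, Polynomial.coeff_mul_C, Polynomial.coeff_X_pow]
    by_cases h : j = tdeg T a
    · rw [if_pos h, one_mul]
      rw [coeff_monomial]
      by_cases hab : a = b
      · subst hab
        rw [if_pos rfl, if_pos h.symm]
      · rw [if_neg hab]
        simp
    · rw [if_neg h, zero_mul, coeff_zero, coeff_monomial]
      by_cases hab : a = b
      · subst hab
        rw [if_neg (fun h' => h h'.symm)]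
      · rw [if_neg hab]
        simp
  | add p q hp hq =>
    rw [map_add, Polynomial.coeff_add, coeff_add, hp, hq, coeff_add]
    split_ifs <;> simp

theorem mem_span_iff (T : Finset (Fin m)) (f : MvPolynomial (Fin m) K) :
    f ∈ Ideal.span (X '' (T : Set (Fin m))) ↔ Polynomial.X ∣ phi T f := by
  rw [mem_ideal_span_X_image, Polynomial.X_dvd_iff]
  constructor
  · intro h
    ext b
    rw [coeff_phi, coeff_zero]
    split_ifs with h0
    · by_contra hne
      obtain ⟨i, hi, hb⟩ := h b (mem_support_iff.2 hne)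
      unfold tdeg at h0
      rw [Finset.sum_eq_zero_iff] at h0
      exact hb (h0 i hi)
    · rfl
  · intro h b hb
    by_contra hne
    push Not at hne
    have h0 : tdeg T b = 0 := Finset.sum_eq_zero fun i hi => hne i hi
    have h1 := coeff_phi T f 0 b
    rw [h, if_pos h0, coeff_zero] at h1
    exact (mem_support_iff.1 hb) h1.symm

theorem tdeg_le_of_dvd (T : Finset (Fin m)) (f : MvPolynomial (Fin m) K) (N : ℕ)
    (h : Polynomial.X ^ N ∣ phi T f) (b : Fin m →₀ ℕ) (hb : coeff b f ≠ 0) : N ≤ tdeg T b := by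
  by_contra hlt
  push Not at hlt
  have h1 := Polynomial.X_pow_dvd_iff.1 h _ hlt
  have h2 := coeff_phi T f (tdeg T b) b
  rw [h1, if_pos rfl, coeff_zero] at h2
  exact hb h2.symm

theorem isPrime_span (T : Finset (Fin m)) :
    (Ideal.span (X '' (T : Set (Fin m))) : Ideal (MvPolynomial (Fin m) K)).IsPrime := by
  have h : (Ideal.span (X '' (T : Set (Fin m))) : Ideal (MvPolynomial (Fin m) K)) =
      (Ideal.span {(Polynomial.X : Polynomial (MvPolynomial (Fin m) K))}).comap (phi T) := by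
    ext f
    rw [mem_span_iff, Ideal.mem_comap, Ideal.mem_span_singleton]
  rw [h]
  have : (Ideal.span {(Polynomial.X : Polynomial (MvPolynomial (Fin m) K))}).IsPrime :=
    (Ideal.span_singleton_prime Polynomial.X_ne_zero).2 Polynomial.prime_X
  exact Ideal.comap_isPrime _ _

theorem X_mem_span (T : Finset (Fin m)) (w : Fin m) :
    (X w : MvPolynomial (Fin m) K) ∈ Ideal.span (X '' (T : Set (Fin m))) ↔ w ∈ T := by
  classical
  constructor
  · intro h
    rw [mem_ideal_span_X_image] at h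
    obtain ⟨i, hi, hne⟩ := h (Finsupp.single w 1) (by
      rw [mem_support_iff, X, coeff_monomial, if_pos rfl]
      exact (one_ne_zero : (1 : K) ≠ 0))
    rw [Finsupp.single_apply] at hne
    split_ifs at hne with h1
    · rw [h1]; exact hi
    · exact absurd rfl hne
  · intro h
    exact Ideal.subset_span ⟨w, h, rfl⟩

theorem mem_minimalPrimes (I : Ideal (MvPolynomial (Fin m) K)) (T : Finset (Fin m))
    (hI : I ≤ Ideal.span (X '' (T : Set (Fin m))))
    (hT : ∀ v ∈ T, ∃ u : Finset (Fin m), u ∩ T = {v} ∧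
      ∏ w ∈ u, (X w : MvPolynomial (Fin m) K) ∈ I) :
    (Ideal.span (X '' (T : Set (Fin m))) : Ideal (MvPolynomial (Fin m) K)) ∈ I.minimalPrimes := by
  refine ⟨⟨isPrime_span T, hI⟩, ?_⟩
  rintro Q ⟨hQ, hIQ⟩ hQP
  rw [Ideal.span_le]
  rintro _ ⟨v, hv, rfl⟩
  obtain ⟨u, hu, hmem⟩ := hT v hv
  have h1 := (Ideal.IsPrime.prod_mem_iff (hp := hQ)).1 (hIQ hmem)
  obtain ⟨w, hw, hwQ⟩ := h1
  have h2 : w ∈ T := (X_mem_span T w).1 (hQP hwQ)
  have h3 : w ∈ u ∩ T := Finset.mem_inter.2 ⟨hw, h2⟩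
  rw [hu, Finset.mem_singleton] at h3
  rw [← h3]
  exact hwQ

theorem symb_dvd (I : Ideal (MvPolynomial (Fin m) K)) (T : Finset (Fin m))
    (hI : I ≤ Ideal.span (X '' (T : Set (Fin m))))
    (hT : ∀ v ∈ T, ∃ u : Finset (Fin m), u ∩ T = {v} ∧
      ∏ w ∈ u, (X w : MvPolynomial (Fin m) K) ∈ I) (N : ℕ) (f : MvPolynomial (Fin m) K)
    (hf : f ∈ symbPow I N) : Polynomial.X ^ N ∣ phi T f := by
  have h0 : symbPow I N ≤
      (Ideal.span {(Polynomial.X ^ N : Polynomial (MvPolynomial (Fin m) K))}).comap (phi T) := by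
    unfold symbPow
    rw [Ideal.span_le]
    intro r hr
    obtain ⟨q, hq, hrq⟩ := hr _ (mem_minimalPrimes I T hI hT)
    rw [SetLike.mem_coe, Ideal.mem_comap, Ideal.mem_span_singleton]
    have h1 : (Ideal.span (X '' (T : Set (Fin m))) : Ideal (MvPolynomial (Fin m) K)) ≤
        (Ideal.span {(Polynomial.X : Polynomial (MvPolynomial (Fin m) K))}).comap (phi T) := by
      intro g hg
      rw [Ideal.mem_comap, Ideal.mem_span_singleton]
      exact (mem_span_iff T g).1 hg
    have h2 : (Ideal.span (X '' (T : Set (Fin m))) : Ideal (MvPolynomial (Fin m) K)) ^ N ≤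
        (Ideal.span {(Polynomial.X ^ N : Polynomial (MvPolynomial (Fin m) K))}).comap (phi T) := by
      refine (Ideal.pow_right_mono h1 N).trans ?_
      refine (Ideal.le_comap_pow _ N).trans ?_
      rw [Ideal.span_singleton_pow]
    have h3 := h2 hrq
    rw [Ideal.mem_comap, Ideal.mem_span_singleton, map_mul] at h3
    exact Polynomial.prime_X.pow_dvd_of_dvd_mul_right N (fun h => hq ((mem_span_iff T q).2 h)) h3
  have h1 := h0 hf
  rwa [Ideal.mem_comap, Ideal.mem_span_singleton] at h1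

theorem prod_mem (I : Ideal (MvPolynomial (Fin m) K)) (W : Finset (Fin m)) (hW : W.Nonempty)
    (h1 : ∀ a ∈ W, ∃ u ⊆ W.erase a, ∏ w ∈ u, (X w : MvPolynomial (Fin m) K) ∈ I) (k : ℕ) :
    (∏ w ∈ W, (X w : MvPolynomial (Fin m) K)) ^ k ∈ symbPow I (2 * k) := by
  classical
  apply Ideal.subset_span
  intro P hP
  have hPr : P.IsPrime := hP.1.1
  have hIP : I ≤ P := hP.1.2
  refine ⟨1, fun h => hPr.ne_top ((Ideal.eq_top_iff_one P).2 h), ?_⟩
  rw [mul_one, pow_mul]
  refine Ideal.pow_mem_pow ?_ k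
  obtain ⟨a0, ha0⟩ := hW
  obtain ⟨u0, hu0, hm0⟩ := h1 a0 ha0
  obtain ⟨a, hau, haP⟩ := (Ideal.IsPrime.prod_mem_iff (hp := hPr)).1 (hIP hm0)
  have haW : a ∈ W := (Finset.mem_erase.1 (hu0 hau)).2
  obtain ⟨u, hu, hm⟩ := h1 a haW
  obtain ⟨b, hbu, hbP⟩ := (Ideal.IsPrime.prod_mem_iff (hp := hPr)).1 (hIP hm)
  have hbW : b ∈ W.erase a := hu hbu
  rw [← Finset.mul_prod_erase W _ haW, ← Finset.mul_prod_erase (W.erase a) _ hbW, ← mul_assoc,
    sq]
  exact Ideal.mul_mem_right _ _ (Ideal.mul_mem_mul haP hbP)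

end PieceC

open PieceC

theorem regularity_symbPow_ge {K : Type} [Field K] {m : ℕ} (I : Ideal (MvPolynomial (Fin m) K))
    (W : Finset (Fin m))
    (h1 : ∀ a ∈ W, ∃ u ⊆ W.erase a, ∏ w ∈ u, (X w : MvPolynomial (Fin m) K) ∈ I)
    (h2 : ∀ a ∈ W, ∃ T : Finset (Fin m), a ∈ T ∧ (T ∩ W).card ≤ 2 ∧
      I ≤ Ideal.span (X '' (T : Set (Fin m))) ∧
      ∀ v ∈ T, ∃ u : Finset (Fin m), u ∩ T = {v} ∧
        ∏ w ∈ u, (X w : MvPolynomial (Fin m) K) ∈ I) (k : ℕ) :
    ((W.card * k : ℕ) : ℕ∞) ≤ regularity (symbPow I (2 * k)) := by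
  classical
  unfold regularity
  refine le_sInf ?_
  rintro _ ⟨t, rfl, F, hF⟩
  rw [Nat.cast_le]
  by_contra hlt
  push Not at hlt
  have hW : W.Nonempty := by
    rw [Finset.nonempty_iff_ne_empty]
    rintro rfl
    simp at hlt
  have hmu := prod_mem I W hW h1 k
  rw [← F.gen_span] at hmu
  obtain ⟨c, hc⟩ := (Ideal.mem_span_range_iff_exists_fun).1 hmu
  -- the exponent of the monomial
  set e : Fin m →₀ ℕ := ∑ w ∈ W, Finsupp.single w k with he
  have hmon : (∏ w ∈ W, (X w : MvPolynomial (Fin m) K)) ^ k = monomial e 1 := by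
    rw [← Finset.prod_pow, he, monomial_sum_one]
    apply Finset.prod_congr rfl
    intro w _
    rw [X_pow_eq_monomial]
  have he' : ∀ v, e v = if v ∈ W then k else 0 := by
    intro v
    rw [he, Finsupp.finsetSum_apply]
    simp only [Finsupp.single_apply]
    rw [Finset.sum_ite_eq' W v]
  have hco : coeff e (∑ l, c l * F.gen l) ≠ 0 := by
    rw [hc, hmon, coeff_monomial, if_pos rfl]
    exact one_ne_zero
  rw [coeff_sum] at hco
  obtain ⟨l, _, hl⟩ := Finset.exists_ne_zero_of_sum_ne_zero hco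
  rw [coeff_mul] at hl
  obtain ⟨⟨x, b⟩, hxb, hne⟩ := Finset.exists_ne_zero_of_sum_ne_zero hl
  have hsum : x + b = e := Finset.HasAntidiagonal.mem_antidiagonal.1 hxb
  have hb : coeff b (F.gen l) ≠ 0 := right_ne_zero_of_mul hne
  have hdeg : b.degree ≤ t := by
    have h3 := F.gen_homog l hb
    have h4 := hF 0 l
    rw [add_zero] at h4
    rw [Finsupp.degree_eq_weight_one]
    exact h3.trans_le h4
  have hble : ∀ v, b v ≤ e v := by
    intro v
    rw [← hsum, Finsupp.add_apply]
    exact Nat.le_add_left _ _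
  obtain ⟨a, haW, hak⟩ : ∃ a ∈ W, b a < k := by
    by_contra hno
    push Not at hno
    have h5 : W.card * k ≤ ∑ a ∈ W, b a := by
      rw [← smul_eq_mul]
      exact Finset.card_nsmul_le_sum W _ k hno
    have h6 : ∑ a ∈ W, b a ≤ b.degree := by
      rw [Finsupp.degree_eq_sum]
      exact Finset.sum_le_sum_of_subset (Finset.subset_univ W)
    omega
  obtain ⟨T, haT, hTW, hIT, hT⟩ := h2 a haW
  have hgen : F.gen l ∈ symbPow I (2 * k) := by
    have : F.gen l ∈ Ideal.span (Set.range F.gen) := Ideal.subset_span ⟨l, rfl⟩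
    rwa [F.gen_span] at this
  have h7 := tdeg_le_of_dvd T _ _ (symb_dvd I T hIT hT (2 * k) _ hgen) b hb
  have h8 : tdeg T b ≤ ∑ v ∈ T ∩ W, b v := by
    unfold tdeg
    have : ∑ v ∈ T, b v = ∑ v ∈ T ∩ W, b v := by
      rw [← Finset.sum_subset (Finset.inter_subset_left (s₁ := T) (s₂ := W))]
      intro v hv hv'
      have hvW : v ∉ W := fun h => hv' (Finset.mem_inter.2 ⟨hv, h⟩)
      have h9 := hble v
      rw [he', if_neg hvW] at h9
      omega
    exact this.le
  have haTW : a ∈ T ∩ W := Finset.mem_inter.2 ⟨haT, haW⟩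
  rw [← Finset.add_sum_erase _ _ haTW] at h8
  have h10 : ∑ v ∈ (T ∩ W).erase a, b v ≤ ((T ∩ W).erase a).card * k := by
    rw [← smul_eq_mul]
    apply Finset.sum_le_card_nsmul
    intro v _
    refine (hble v).trans ?_
    rw [he']
    split_ifs <;> omega
  rw [Finset.card_erase_of_mem haTW] at h10
  have h11 : ((T ∩ W).card - 1) * k ≤ 1 * k := Nat.mul_le_mul_right k (by omega)
  omega

end

end Pool.K4H87.BE
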