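import Pool.Agent.K4H87.BE.Defs

/-! The limit of the regularities of the symbolic powers (piece D for MP_641f76_ag). -/

namespace Pool.K4H87.BE

open MvPolynomial

/-- If `reg I^(2k) ≥ 9 k` for all `k` then the limit of `reg I^(s) / s` is at least `9/2`. -/
theorem limit_ge {K : Type} [Field K] {m : ℕ} (I : Ideal (MvPolynomial (Fin m) K))
    (h : ∀ k : ℕ, ((9 * k : ℕ) : ℕ∞) ≤ regularity (symbPow I (2 * k))) (L : ENNReal)
    (hL : Filter.Tendsto (fun s : ℕ => ((regularity (symbPow I s) : ℕ∞) : ENNReal) / (s : ENNReal))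
      Filter.atTop (nhds L)) : 9 / 2 ≤ L := by
  have hsub : Filter.Tendsto (fun k : ℕ => 2 * k) Filter.atTop Filter.atTop :=
    Filter.tendsto_id.const_mul_atTop' (by norm_num)
  refine ge_of_tendsto (hL.comp hsub) ?_
  filter_upwards [Filter.eventually_ge_atTop 1] with k hk
  simp only [Function.comp_apply]
  have h1 : ((9 * k : ℕ) : ENNReal) ≤ ((regularity (symbPow I (2 * k)) : ℕ∞) : ENNReal) := by
    have h2 := h k
    have h3 : (((9 * k : ℕ) : ℕ∞) : ENNReal) ≤
        ((regularity (symbPow I (2 * k)) : ℕ∞) : ENNReal) := by exact_mod_cast h2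
    simpa using h3
  have h4 : (9 / 2 : ENNReal) = ((9 * k : ℕ) : ENNReal) / ((2 * k : ℕ) : ENNReal) := by
    have hk0 : (k : ENNReal) ≠ 0 := by
      simp; omega
    push_cast
    rw [ENNReal.mul_div_mul_right _ _ hk0 (ENNReal.natCast_ne_top k)]
  rw [h4]
  exact ENNReal.div_le_div_right h1 _

end Pool.K4H87.BE
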