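import Mathlib

/-!
# Binomial edge ideals, initial ideals, symbolic powers, regularity

The variables of the polynomial ring are indexed by `Fin (n + n)`: the first `n` indices are
`x_1, ..., x_n`, the last `n` are `y_1, ..., y_n`.
-/

namespace Pool.K4H87.BE

open MvPolynomial

noncomputable section

/-- The index of the variable `x_i`. -/
def xv {n : ℕ} (i : Fin n) : Fin (n + n) := Fin.castAdd n i

/-- The index of the variable `y_i`. -/
def yv {n : ℕ} (i : Fin n) : Fin (n + n) := Fin.natAdd n i

/-- The binomial edge ideal of a graph `G` on the labelled vertex set `Fin n`. -/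
def edgeIdeal (K : Type) [Field K] {n : ℕ} (G : SimpleGraph (Fin n)) :
    Ideal (MvPolynomial (Fin (n + n)) K) :=
  Ideal.span {f | ∃ i j : Fin n, G.Adj i j ∧ i < j ∧ f = X (xv i) * X (yv j) - X (xv j) * X (yv i)}

/-- The initial ideal of `J` for the lexicographic order with
`x_1 > ... > x_n > y_1 > ... > y_n`: it is generated by the leading monomials of the nonzero
elements of `J`. -/
def initialIdeal {K : Type} [Field K] {m : ℕ} (J : Ideal (MvPolynomial (Fin m) K)) :
    Ideal (MvPolynomial (Fin m) K) :=
  Ideal.span {f | ∃ g ∈ J, g ≠ 0 ∧ f = monomial ((MonomialOrder.lex (σ := Fin m)).degree g) 1}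

/-- The `m`-th symbolic power of an ideal: the intersection, over the minimal primes `P`, of
`P^(m) = {r | r q ∈ P^m for some q ∉ P}`. -/
def symbPow {R : Type} [CommRing R] (I : Ideal R) (m : ℕ) : Ideal R :=
  Ideal.span {r | ∀ P ∈ I.minimalPrimes, ∃ q, q ∉ P ∧ r * q ∈ P ^ m}

/-- A graded free resolution (with free modules of finite rank) of an ideal `J` of a polynomial
ring. `deg i l` is the degree of the `l`-th basis element of `F_i`, `gen` is the map `F_0 → J`,
and `mat i` is the matrix of `F_{i+1} → F_i`. -/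
structure GradedFreeResolution {K : Type} [Field K] {m : ℕ}
    (J : Ideal (MvPolynomial (Fin m) K)) where
  rank : ℕ → ℕ
  deg : (i : ℕ) → Fin (rank i) → ℕ
  gen : Fin (rank 0) → MvPolynomial (Fin m) K
  mat : (i : ℕ) → Fin (rank i) → Fin (rank (i + 1)) → MvPolynomial (Fin m) K
  gen_homog : ∀ l, (gen l).IsHomogeneous (deg 0 l)
  mat_homog : ∀ i l k, ∀ d, deg i l + d = deg (i + 1) k → (mat i l k).IsHomogeneous d
  mat_zero : ∀ i l k, deg (i + 1) k < deg i l → mat i l k = 0
  gen_span : Ideal.span (Set.range gen) = J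
  exact_zero : ∀ v : Fin (rank 0) → MvPolynomial (Fin m) K,
    (∑ l, v l * gen l = 0) ↔ ∃ w : Fin (rank 1) → MvPolynomial (Fin m) K,
      ∀ l, v l = ∑ k, mat 0 l k * w k
  exact_succ : ∀ i, ∀ v : Fin (rank (i + 1)) → MvPolynomial (Fin m) K,
    (∀ l, ∑ k, mat i l k * v k = 0) ↔ ∃ w : Fin (rank (i + 2)) → MvPolynomial (Fin m) K,
      ∀ k, v k = ∑ t, mat (i + 1) k t * w t

/-- The Castelnuovo-Mumford regularity of a homogeneous ideal `J` of a polynomial ring: the least
`r` such that `J` has a graded free resolution in which every basis element of `F_i` has degree at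
most `r + i`. -/
def regularity {K : Type} [Field K] {m : ℕ}
    (J : Ideal (MvPolynomial (Fin m) K)) : ℕ∞ :=
  sInf {r | ∃ t : ℕ, r = t ∧ ∃ F : GradedFreeResolution J, ∀ i l, F.deg i l ≤ t + i}

/-- `p` lists the vertices of a path of `G` from `i` to `j`, in order. -/
def IsPathFromTo {n : ℕ} (G : SimpleGraph (Fin n)) (i j : Fin n) (p : List (Fin n)) : Prop :=
  p.Nodup ∧ p.IsChain G.Adj ∧ p.head? = some i ∧ p.getLast? = some j

/-- Admissible paths from `i` to `j`, for `i < j`: every vertex of the path other than `i` and `j`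
is smaller than `i` or larger than `j`, and there is no path from `i` to `j` all of whose vertices
belong to a proper subset of the vertices of `p`. -/
def IsAdmissible {n : ℕ} (G : SimpleGraph (Fin n)) (i j : Fin n) (p : List (Fin n)) : Prop :=
  i < j ∧ IsPathFromTo G i j p ∧
  (∀ v ∈ p, v ≠ i → v ≠ j → v < i ∨ j < v) ∧
  ∀ q : List (Fin n), IsPathFromTo G i j q → q.toFinset ⊂ p.toFinset → False

/-- The largest number of vertices of an admissible path of `G`. -/
def ellLt {n : ℕ} (G : SimpleGraph (Fin n)) : ℕ :=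
  sSup {k | ∃ i j p, IsAdmissible G i j p ∧ p.length = k}

/-- The graph of the example, on the vertices `1, ..., 8`, written here as `0, ..., 7`, with the
edges `12, 17, 18, 28, 35, 36, 37, 46, 68`. -/
def edgeList : List (Fin 8 × Fin 8) :=
  [(0, 1), (0, 6), (0, 7), (1, 7), (2, 4), (2, 5), (2, 6), (3, 5), (5, 7)]

/-- Adjacency in the example. -/
def adj8 (i j : Fin 8) : Bool := (i, j) ∈ edgeList || (j, i) ∈ edgeList

/-- The example graph. -/
def G8 : SimpleGraph (Fin 8) where
  Adj i j := adj8 i j = true
  symm := ⟨by decide⟩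
  loopless := ⟨by intro i; revert i; decide⟩

instance : DecidableRel G8.Adj := fun i j => inferInstanceAs (Decidable (adj8 i j = true))

end

end Pool.K4H87.BE
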