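import Pool.Agent.K4H87.BE.Defs

/-! Monomials of paths in the initial ideal of a binomial edge ideal (piece E for
MP_641f76_ag). -/

namespace Pool.K4H87.BE

open MvPolynomial

/-- The generator `x_i y_j - x_j y_i`. -/
noncomputable def bin (K : Type) [Field K] {n : ℕ} (i j : Fin n) : MvPolynomial (Fin (n + n)) K :=
  X (xv i) * X (yv j) - X (xv j) * X (yv i)

theorem bin_mem (K : Type) [Field K] {n : ℕ} (G : SimpleGraph (Fin n)) (i j : Fin n)
    (h : G.Adj i j) : bin K i j ∈ edgeIdeal K G := by
  rcases lt_trichotomy i j with h1 | h1 | h1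
  · exact Ideal.subset_span ⟨i, j, h, h1, rfl⟩
  · subst h1
    exact absurd h (G.irrefl)
  · have h2 : bin K j i ∈ edgeIdeal K G := Ideal.subset_span ⟨j, i, h.symm, h1, rfl⟩
    have h3 : bin K i j = - bin K j i := by
      unfold bin; ring
    rw [h3]
    exact neg_mem h2

/-- The index of `x_v` or `y_v`. -/
def var {n : ℕ} (ε : Fin n → Bool) (v : Fin n) : Fin (n + n) := if ε v then xv v else yv v

theorem path_mem (K : Type) [Field K] {n : ℕ} (G : SimpleGraph (Fin n)) (ε : Fin n → Bool)
    (l : List (Fin n)) : ∀ (i j : Fin n), List.IsChain G.Adj (i :: (l ++ [j])) →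
    (l.map fun v => (X (var ε v) : MvPolynomial (Fin (n + n)) K)).prod * bin K i j ∈
      edgeIdeal K G := by
  induction l with
  | nil =>
    intro i j h
    simp only [List.nil_append, List.isChain_cons_cons] at h
    simpa using bin_mem K G i j h.1
  | cons v l ih =>
    intro i j h
    rw [List.cons_append, List.isChain_cons_cons] at h
    have h1 := ih v j h.2
    have h2 := bin_mem K G i v h.1
    rw [List.map_cons, List.prod_cons]
    set P := (l.map fun v => (X (var ε v) : MvPolynomial (Fin (n + n)) K)).prod with hP
    cases hv : ε v with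
    | true =>
      have h3 : X (var ε v) * P * bin K i j =
          X (xv i) * (P * bin K v j) + (P * X (xv j)) * bin K i v := by
        unfold bin var
        rw [hv]
        simp only [if_true]
        ring
      rw [h3]
      exact add_mem (Ideal.mul_mem_left _ _ h1) (Ideal.mul_mem_left _ _ h2)
    | false =>
      have h3 : X (var ε v) * P * bin K i j =
          X (yv i) * (P * bin K v j) + (P * X (yv j)) * bin K i v := by
        unfold bin var
        rw [hv]
        simp only [Bool.false_eq_true, if_false]
        ring
      rw [h3]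
      exact add_mem (Ideal.mul_mem_left _ _ h1) (Ideal.mul_mem_left _ _ h2)

theorem lead_mem {K : Type} [Field K] {n : ℕ} (J : Ideal (MvPolynomial (Fin (n + n)) K))
    (u : Fin (n + n) →₀ ℕ) (i j : Fin n) (hij : i < j)
    (h : (monomial u 1 : MvPolynomial (Fin (n + n)) K) * bin K i j ∈ J) :
    (monomial u 1 : MvPolynomial (Fin (n + n)) K) * (X (xv i) * X (yv j)) ∈ initialIdeal J := by
  classical
  set m1 : Fin (n + n) →₀ ℕ := u + (Finsupp.single (xv i) 1 + Finsupp.single (yv j) 1) with hm1
  set m2 : Fin (n + n) →₀ ℕ := u + (Finsupp.single (xv j) 1 + Finsupp.single (yv i) 1) with hm2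
  have e1 : (monomial u 1 : MvPolynomial (Fin (n + n)) K) * (X (xv i) * X (yv j)) =
      monomial m1 1 := by
    rw [X, X, monomial_mul, monomial_mul, one_mul, one_mul]
  have e2 : (monomial u 1 : MvPolynomial (Fin (n + n)) K) * (X (xv j) * X (yv i)) =
      monomial m2 1 := by
    rw [X, X, monomial_mul, monomial_mul, one_mul, one_mul]
  have e3 : (monomial u 1 : MvPolynomial (Fin (n + n)) K) * bin K i j =
      monomial m1 1 - monomial m2 1 := by
    rw [bin, mul_sub, e1, e2]
  have hlt : toLex m2 < toLex m1 := by
    rw [Finsupp.Lex.lt_iff]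
    refine ⟨xv i, ?_, ?_⟩
    · intro k hk
      have a1 : xv i ≠ k := hk.ne'
      have a2 : yv j ≠ k := by
        intro e
        rw [← e, Fin.lt_def] at hk
        simp only [xv, yv, Fin.val_natAdd, Fin.val_castAdd] at hk
        omega
      have a3 : xv j ≠ k := by
        intro e
        rw [← e, Fin.lt_def] at hk
        simp only [xv, Fin.val_castAdd] at hk
        have := Fin.lt_def.1 hij
        omega
      have a4 : yv i ≠ k := by
        intro e
        rw [← e, Fin.lt_def] at hk
        simp only [xv, yv, Fin.val_natAdd, Fin.val_castAdd] at hk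
        omega
      change m2 k = m1 k
      rw [hm1, hm2]
      simp only [Finsupp.add_apply, Finsupp.single_apply, if_neg a1, if_neg a2, if_neg a3,
        if_neg a4]
    · change m2 (xv i) < m1 (xv i)
      have a2 : yv j ≠ xv i := by
        intro e
        have := congrArg Fin.val e
        simp only [xv, yv, Fin.val_natAdd, Fin.val_castAdd] at this
        omega
      have a3 : xv j ≠ xv i := by
        intro e
        have := congrArg Fin.val e
        simp only [xv, Fin.val_castAdd] at this
        have := Fin.lt_def.1 hij
        omega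
      have a4 : yv i ≠ xv i := by
        intro e
        have := congrArg Fin.val e
        simp only [xv, yv, Fin.val_natAdd, Fin.val_castAdd] at this
        omega
      rw [hm1, hm2]
      simp only [Finsupp.add_apply, Finsupp.single_apply, if_neg a2, if_neg a3, if_neg a4,
        if_true]
      omega
  have hdeg : (MonomialOrder.lex (σ := Fin (n + n))).degree
      ((monomial m1 1 : MvPolynomial (Fin (n + n)) K) - monomial m2 1) = m1 := by
    rw [MonomialOrder.degree_sub_of_lt, MonomialOrder.degree_monomial, if_neg one_ne_zero]
    rw [MonomialOrder.degree_monomial, MonomialOrder.degree_monomial, if_neg one_ne_zero,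
      if_neg one_ne_zero]
    exact hlt
  rw [e1]
  apply Ideal.subset_span
  refine ⟨monomial m1 1 - monomial m2 1, e3 ▸ h, ?_, ?_⟩
  · intro h0
    have := congrArg (coeff m1) h0
    rw [coeff_sub, coeff_monomial, coeff_monomial, if_pos rfl, coeff_zero, if_neg] at this
    · rw [sub_zero] at this
      exact (one_ne_zero : (1 : K) ≠ 0) this
    · intro e
      rw [e] at hlt
      exact lt_irrefl _ hlt
  · rw [hdeg]

/-- The monomial of a path from `i` to `j` (with the interior vertices `l`, each with one of its two
variables) lies in the initial ideal. -/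
theorem prod_mem_initialIdeal (K : Type) [Field K] {n : ℕ} (G : SimpleGraph (Fin n))
    (ε : Fin n → Bool) (i j : Fin n) (l : List (Fin n)) (u : Finset (Fin (n + n))) (hij : i < j)
    (hl : List.IsChain G.Adj (i :: (l ++ [j])))
    (hnd : (xv i :: yv j :: l.map (var ε)).Nodup)
    (hu : u = (xv i :: yv j :: l.map (var ε)).toFinset) :
    ∏ w ∈ u, (X w : MvPolynomial (Fin (n + n)) K) ∈ initialIdeal (edgeIdeal K G) := by
  classical
  have h1 := path_mem K G ε l i j hl
  have h2 : (l.map fun v => (X (var ε v) : MvPolynomial (Fin (n + n)) K)).prod =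
      monomial ((l.map fun v => Finsupp.single (var ε v) 1).sum) 1 := by
    clear hl hnd hu h1
    induction l with
    | nil => simp
    | cons v l ih =>
      rw [List.map_cons, List.prod_cons, List.map_cons, List.sum_cons, ih, X, monomial_mul, one_mul]
  rw [h2] at h1
  have h3 := lead_mem _ _ i j hij h1
  rw [← h2] at h3
  rw [hu, List.prod_toFinset _ hnd, List.map_cons, List.map_cons, List.prod_cons, List.prod_cons,
    List.map_map]
  convert h3 using 1
  rw [← mul_assoc, mul_comm]
  rfl

end Pool.K4H87.BE
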