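import Pool.Agent.K4H87.BE.Gens
import Pool.Agent.K4H87.BE.A
import Pool.Agent.K4H87.BE.C
import Pool.Agent.K4H87.BE.D
import Pool.Agent.K4H94.BEB

/-!
# Assembly
-/

namespace Pool.K4H87.BE

open MvPolynomial Filter

noncomputable section

theorem le_of_data (K : Type) [Field K] (S : Finset (Fin 8)) (c k : Fin 8 → Fin 8)
    (T : Finset (Fin (8 + 8)))
    (h1 : ∀ i j, G8.Adj i j → i ∉ S → j ∉ S → c i = c j)
    (h2 : ∀ v, ((∃ i ∈ S, v = xv i ∨ v = yv i) ∨
    (∃ i, v = xv i ∧ i < k (c i)) ∨ (∃ j, v = yv j ∧ k (c j) < j)) → v ∈ T) :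
    initialIdeal (edgeIdeal K G8) ≤ Ideal.span (X '' (T : Set (Fin (8 + 8)))) :=
  (initialIdeal_le K G8 S c k h1).trans (Ideal.span_mono (Set.image_mono (fun v hv => h2 v hv)))

theorem primes_le (K : Type) [Field K] (T : Finset (Fin (8 + 8))) (hT : T ∈ primesList) :
    initialIdeal (edgeIdeal K G8) ≤ Ideal.span (X '' (T : Set (Fin (8 + 8)))) := by
  unfold primesList at hT
  simp only [List.mem_cons, List.not_mem_nil, or_false] at hT
  rcases hT with rfl | rfl | rfl | rfl | rfl | rfl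
  · exact le_of_data K ∅ (fun _ => 0) (fun _ => 5) _ (by decide +kernel) (by decide +kernel)
  · exact le_of_data K {0, 5} ![0, 1, 2, 3, 2, 5, 2, 1] ![0, 1, 6, 3, 4, 5, 6, 7] _
      (by decide +kernel) (by decide +kernel)
  · exact le_of_data K {5, 6} ![0, 0, 2, 3, 2, 5, 6, 0] ![1, 1, 4, 3, 4, 5, 6, 7] _
      (by decide +kernel) (by decide +kernel)
  · exact le_of_data K {2, 7} ![0, 0, 2, 3, 4, 3, 0, 7] ![1, 1, 2, 3, 4, 5, 6, 7] _
      (by decide +kernel) (by decide +kernel)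
  · exact le_of_data K {2} ![0, 0, 2, 0, 4, 0, 0, 0] ![1, 1, 2, 3, 4, 5, 6, 7] _
      (by decide +kernel) (by decide +kernel)
  · exact le_of_data K ∅ (fun _ => 0) (fun _ => 3) _ (by decide +kernel) (by decide +kernel)

theorem reg_ge (K : Type) [Field K] (k : ℕ) :
    ((9 * k : ℕ) : ℕ∞) ≤ regularity (symbPow (initialIdeal (edgeIdeal K G8)) (2 * k)) := by
  have h := regularity_symbPow_ge (initialIdeal (edgeIdeal K G8)) W8 ?_ ?_ k
  · rw [W8_card] at h; exact h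
  · intro a ha
    obtain ⟨u, hu, hs⟩ := W8_avoid a ha
    exact ⟨u, hs, gens_mem K u hu⟩
  · intro a ha
    obtain ⟨T, hT, h1, h2⟩ := primes_W8 a ha
    refine ⟨T, h1, h2, primes_le K T hT, ?_⟩
    intro v hv
    obtain ⟨u, hu, h3⟩ := primes_min T hT v hv
    exact ⟨u, h3, gens_mem K u hu⟩

theorem limit_ne (K : Type) [Field K] (L : ENNReal)
    (hL : Tendsto (fun s : ℕ =>
      ((regularity (symbPow (initialIdeal (edgeIdeal K G8)) s) : ℕ∞) : ENNReal) / (s : ENNReal))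
      atTop (nhds L)) : 9 / 2 ≤ L ∧ L ≠ ((ellLt G8 : ℕ) : ENNReal) := by
  have h1 := limit_ge _ (reg_ge K) L hL
  refine ⟨h1, ?_⟩
  rintro rfl
  rw [ellLt_G8] at h1
  have h6 : ((4 : ℕ) : ENNReal) < 9 / 2 := by
    rw [ENNReal.lt_div_iff_mul_lt (by norm_num) (by norm_num)]
    norm_num
  exact absurd h1 (not_le.2 h6)

end

end Pool.K4H87.BE
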