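import Pool.Agent.K4H87.BE.Lead

/-!
# The generators used in the example
-/

namespace Pool.K4H87.BE

open MvPolynomial

noncomputable section

/-- Supports of squarefree monomials in the initial ideal of the example. -/
def gensList : List (Finset (Fin (8 + 8))) :=
  [{0, 15}, {0, 7, 13}, {0, 5, 7, 10}, {0, 5, 7, 11}, {0, 9}, {0, 14}, {0, 6, 10}, {1, 15},
   {1, 7, 13}, {1, 5, 7, 10}, {1, 5, 7, 11}, {1, 8, 14}, {1, 6, 8, 10}, {2, 12}, {2, 13},
   {2, 5, 11}, {2, 14}, {3, 13}, {3, 5, 10, 12}, {4, 10, 13}, {4, 10, 14}, {5, 15},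
   {5, 7, 8, 14}, {5, 10, 14}, {6, 8, 15}, {6, 10, 13, 15}]

variable (K : Type) [Field K]

theorem mem2 (i j : Fin 8) (u : Finset (Fin (8 + 8))) (hij : i < j ∧ G8.Adj i j)
    (hu : u = insert (xv i) (insert (yv j) ∅)) :
    ∏ w ∈ u, (X w : MvPolynomial (Fin (8 + 8)) K) ∈ initialIdeal (edgeIdeal K G8) := by
  rw [hu]; exact g2 G8 i j hij.1 hij.2

theorem mem3 (i v j : Fin 8) (b : Bool) (u : Finset (Fin (8 + 8)))
    (h : i < j ∧ G8.Adj i v ∧ G8.Adj v j)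
    (hu : u = insert (xv i) (insert (yv j) {zv b v})) :
    ∏ w ∈ u, (X w : MvPolynomial (Fin (8 + 8)) K) ∈ initialIdeal (edgeIdeal K G8) := by
  rw [hu]; exact g3 G8 i v j b h.1 h.2.1 h.2.2

theorem mem4 (i v v' j : Fin 8) (b b' : Bool) (u : Finset (Fin (8 + 8)))
    (h : i < j ∧ G8.Adj i v ∧ G8.Adj v v' ∧ G8.Adj v' j ∧ v ≠ j ∧ v' ≠ i)
    (hu : u = insert (xv i) (insert (yv j) {zv b v, zv b' v'})) :
    ∏ w ∈ u, (X w : MvPolynomial (Fin (8 + 8)) K) ∈ initialIdeal (edgeIdeal K G8) := by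
  rw [hu]; exact g4 G8 i v v' j b b' h.1 h.2.1 h.2.2.1 h.2.2.2.1 h.2.2.2.2.1 h.2.2.2.2.2

theorem gens_mem (u : Finset (Fin (8 + 8))) (hu : u ∈ gensList) :
    ∏ w ∈ u, (X w : MvPolynomial (Fin (8 + 8)) K) ∈ initialIdeal (edgeIdeal K G8) := by
  unfold gensList at hu
  simp only [List.mem_cons, List.not_mem_nil, or_false] at hu
  rcases hu with rfl | rfl | rfl | rfl | rfl | rfl | rfl | rfl | rfl | rfl | rfl | rfl | rfl |
    rfl | rfl | rfl | rfl | rfl | rfl | rfl | rfl | rfl | rfl | rfl | rfl | rfl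
  -- (1,8)
  · exact mem2 K 0 7 _ (by decide) (by decide)
  -- (1,8,6)
  · exact mem3 K 0 7 5 true _ (by decide) (by decide)
  -- (1,8,6,3)
  · exact mem4 K 0 7 5 2 true true _ (by decide) (by decide)
  -- (1,8,6,4)
  · exact mem4 K 0 7 5 3 true true _ (by decide) (by decide)
  -- (1,2)
  · exact mem2 K 0 1 _ (by decide) (by decide)
  -- (1,7)
  · exact mem2 K 0 6 _ (by decide) (by decide)
  -- (1,7,3)
  · exact mem3 K 0 6 2 true _ (by decide) (by decide)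
  -- (2,8)
  · exact mem2 K 1 7 _ (by decide) (by decide)
  -- (2,8,6)
  · exact mem3 K 1 7 5 true _ (by decide) (by decide)
  -- (2,8,6,3)
  · exact mem4 K 1 7 5 2 true true _ (by decide) (by decide)
  -- (2,8,6,4)
  · exact mem4 K 1 7 5 3 true true _ (by decide) (by decide)
  -- (2,1,7)
  · exact mem3 K 1 0 6 false _ (by decide) (by decide)
  -- (2,1,7,3)
  · exact mem4 K 1 0 6 2 false true _ (by decide) (by decide)
  -- (3,5)
  · exact mem2 K 2 4 _ (by decide) (by decide)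
  -- (3,6)
  · exact mem2 K 2 5 _ (by decide) (by decide)
  -- (3,6,4)
  · exact mem3 K 2 5 3 true _ (by decide) (by decide)
  -- (3,7)
  · exact mem2 K 2 6 _ (by decide) (by decide)
  -- (4,6)
  · exact mem2 K 3 5 _ (by decide) (by decide)
  -- (4,6,3,5)
  · exact mem4 K 3 5 2 4 true false _ (by decide) (by decide)
  -- (5,3,6)
  · exact mem3 K 4 2 5 false _ (by decide) (by decide)
  -- (5,3,7)
  · exact mem3 K 4 2 6 false _ (by decide) (by decide)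
  -- (6,8)
  · exact mem2 K 5 7 _ (by decide) (by decide)
  -- (6,8,1,7)
  · exact mem4 K 5 7 0 6 true false _ (by decide) (by decide)
  -- (6,3,7)
  · exact mem3 K 5 2 6 false _ (by decide) (by decide)
  -- (7,1,8)
  · exact mem3 K 6 0 7 false _ (by decide) (by decide)
  -- (7,3,6,8)
  · exact mem4 K 6 2 5 7 false false _ (by decide) (by decide)

/-- The set of variables `x_2, x_4, x_6, x_7, x_8, y_1, y_3, y_4, y_5`. -/
def W8 : Finset (Fin (8 + 8)) := {1, 3, 5, 6, 7, 8, 10, 11, 12}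

theorem W8_card : W8.card = 9 := by decide

theorem W8_avoid : ∀ a ∈ W8, ∃ u ∈ gensList, u ⊆ W8.erase a := by decide +kernel

/-- The six minimal primes that are used. -/
def primesList : List (Finset (Fin (8 + 8))) :=
  [{0, 1, 2, 3, 4, 14, 15}, {0, 2, 4, 5, 8, 13, 15}, {0, 2, 5, 6, 13, 14, 15},
   {0, 2, 7, 10, 13, 14, 15}, {0, 2, 10, 11, 13, 14, 15}, {0, 1, 2, 12, 13, 14, 15}]

theorem primes_W8 : ∀ a ∈ W8, ∃ T ∈ primesList, a ∈ T ∧ (T ∩ W8).card ≤ 2 := by decide +kernel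

theorem primes_min : ∀ T ∈ primesList, ∀ v ∈ T, ∃ u ∈ gensList, u ∩ T = {v} := by
  intro T hT
  unfold primesList at hT
  simp only [List.mem_cons, List.not_mem_nil, or_false] at hT
  have key : ∀ (T : Finset (Fin (8 + 8))) (v : Fin (8 + 8)) (k : ℕ),
      (∃ u, gensList[k]? = some u ∧ u ∩ T = {v}) → ∃ u ∈ gensList, u ∩ T = {v} := by
    rintro T v k ⟨u, h1, h2⟩
    exact ⟨u, List.mem_of_getElem? h1, h2⟩
  rcases hT with rfl | rfl | rfl | rfl | rfl | rfl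
  all_goals
    intro v hv
    simp only [Finset.mem_insert, Finset.mem_singleton] at hv
    rcases hv with rfl | rfl | rfl | rfl | rfl | rfl | rfl
  · exact key _ _ 1 ⟨_, rfl, by decide⟩
  · exact key _ _ 8 ⟨_, rfl, by decide⟩
  · exact key _ _ 13 ⟨_, rfl, by decide⟩
  · exact key _ _ 17 ⟨_, rfl, by decide⟩
  · exact key _ _ 19 ⟨_, rfl, by decide⟩
  · exact key _ _ 22 ⟨_, rfl, by decide⟩
  · exact key _ _ 21 ⟨_, rfl, by decide⟩
  · exact key _ _ 4 ⟨_, rfl, by decide⟩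
  · exact key _ _ 13 ⟨_, rfl, by decide⟩
  · exact key _ _ 20 ⟨_, rfl, by decide⟩
  · exact key _ _ 9 ⟨_, rfl, by decide⟩
  · exact key _ _ 11 ⟨_, rfl, by decide⟩
  · exact key _ _ 8 ⟨_, rfl, by decide⟩
  · exact key _ _ 7 ⟨_, rfl, by decide⟩
  · exact key _ _ 4 ⟨_, rfl, by decide⟩
  · exact key _ _ 13 ⟨_, rfl, by decide⟩
  · exact key _ _ 9 ⟨_, rfl, by decide⟩
  · exact key _ _ 12 ⟨_, rfl, by decide⟩
  · exact key _ _ 8 ⟨_, rfl, by decide⟩
  · exact key _ _ 11 ⟨_, rfl, by decide⟩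
  · exact key _ _ 7 ⟨_, rfl, by decide⟩
  · exact key _ _ 4 ⟨_, rfl, by decide⟩
  · exact key _ _ 13 ⟨_, rfl, by decide⟩
  · exact key _ _ 10 ⟨_, rfl, by decide⟩
  · exact key _ _ 12 ⟨_, rfl, by decide⟩
  · exact key _ _ 17 ⟨_, rfl, by decide⟩
  · exact key _ _ 11 ⟨_, rfl, by decide⟩
  · exact key _ _ 7 ⟨_, rfl, by decide⟩
  · exact key _ _ 4 ⟨_, rfl, by decide⟩
  · exact key _ _ 13 ⟨_, rfl, by decide⟩
  · exact key _ _ 9 ⟨_, rfl, by decide⟩
  · exact key _ _ 10 ⟨_, rfl, by decide⟩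
  · exact key _ _ 8 ⟨_, rfl, by decide⟩
  · exact key _ _ 11 ⟨_, rfl, by decide⟩
  · exact key _ _ 7 ⟨_, rfl, by decide⟩
  · exact key _ _ 2 ⟨_, rfl, by decide⟩
  · exact key _ _ 9 ⟨_, rfl, by decide⟩
  · exact key _ _ 15 ⟨_, rfl, by decide⟩
  · exact key _ _ 18 ⟨_, rfl, by decide⟩
  · exact key _ _ 17 ⟨_, rfl, by decide⟩
  · exact key _ _ 20 ⟨_, rfl, by decide⟩
  · exact key _ _ 21 ⟨_, rfl, by decide⟩

end

end Pool.K4H87.BE
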