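import Pool.Agent.K4H87.BE.Defs

/-!
# Some monomials in the initial ideal of a binomial edge ideal
-/

namespace Pool.K4H87.BE

open MvPolynomial MonomialOrder

noncomputable section

variable {K : Type} [Field K]

/-- Exponent of a squarefree monomial. -/
def ex {m : ℕ} (u : Finset (Fin m)) : Fin m →₀ ℕ := ∑ w ∈ u, Finsupp.single w 1

theorem ex_apply {m : ℕ} (u : Finset (Fin m)) (s : Fin m) : ex u s = if s ∈ u then 1 else 0 := by
  unfold ex
  rw [Finsupp.finset_sum_apply]
  simp [Finsupp.single_apply]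

theorem prod_X_eq {m : ℕ} (u : Finset (Fin m)) :
    ∏ w ∈ u, (X w : MvPolynomial (Fin m) K) = monomial (ex u) 1 := by
  unfold ex
  classical
  induction u using Finset.induction_on with
  | empty => simp
  | insert a s ha ih =>
    rw [Finset.prod_insert ha, Finset.sum_insert ha, ih, X, monomial_mul, one_mul]

theorem lead_mem {m : ℕ} (J : Ideal (MvPolynomial (Fin m) K)) (μ ν : Fin m →₀ ℕ)
    (h : monomial μ (1 : K) - monomial ν 1 ∈ J)
    (hlt : ν ≺[(MonomialOrder.lex (σ := Fin m))] μ) :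
    monomial μ (1 : K) ∈ initialIdeal J := by
  classical
  have hdeg : (MonomialOrder.lex (σ := Fin m)).degree (monomial μ (1 : K) - monomial ν 1) = μ := by
    have hneg : -(monomial ν (1 : K)) = monomial ν (-1) := by simp
    rw [sub_eq_add_neg, hneg, degree_add_of_lt]
    · rw [degree_monomial]; simp
    · rw [degree_monomial, degree_monomial]
      simpa using hlt
  have hne : monomial μ (1 : K) - monomial ν 1 ≠ 0 := by
    intro h0
    have : μ = ν := by
      have := congrArg (coeff μ) h0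
      by_contra hne
      simp [coeff_sub, coeff_monomial, Ne.symm hne] at this
    rw [this] at hlt
    exact lt_irrefl _ hlt
  refine Ideal.subset_span ⟨_, h, hne, ?_⟩
  rw [hdeg]

theorem lead_mem' {m : ℕ} (J : Ideal (MvPolynomial (Fin m) K)) (u u' : Finset (Fin m))
    (t : Fin m) (ht : t ∈ u) (ht' : t ∉ u') (hlt : ∀ s, s < t → (s ∈ u' ↔ s ∈ u))
    (h : ∏ w ∈ u, (X w : MvPolynomial (Fin m) K) - ∏ w ∈ u', X w ∈ J) :
    ∏ w ∈ u, (X w : MvPolynomial (Fin m) K) ∈ initialIdeal J := by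
  rw [prod_X_eq, prod_X_eq] at h
  rw [prod_X_eq]
  apply lead_mem J _ _ h
  rw [MonomialOrder.lex_lt_iff, Finsupp.Lex.lt_iff]
  refine ⟨t, ?_, ?_⟩
  · intro j hj
    change ex u' j = ex u j
    rw [ex_apply, ex_apply]
    simp only [hlt j hj]
  · change ex u' t < ex u t
    rw [ex_apply, ex_apply, if_pos ht, if_neg ht']
    exact Nat.one_pos

/-- The binomial attached to a pair of vertices. -/
def bin {n : ℕ} (K : Type) [Field K] (i j : Fin n) : MvPolynomial (Fin (n + n)) K :=
  X (xv i) * X (yv j) - X (xv j) * X (yv i)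

/-- `x_v` or `y_v`. -/
def zv {n : ℕ} (b : Bool) (v : Fin n) : Fin (n + n) := if b then xv v else yv v

theorem bin_mem {n : ℕ} (G : SimpleGraph (Fin n)) (i j : Fin n) (h : G.Adj i j) :
    bin K i j ∈ edgeIdeal K G := by
  rcases lt_trichotomy i j with hij | hij | hij
  · exact Ideal.subset_span ⟨i, j, h, hij, rfl⟩
  · exact absurd hij h.ne
  · have : bin K j i ∈ edgeIdeal K G := Ideal.subset_span ⟨j, i, h.symm, hij, rfl⟩
    have h2 : bin K i j = -bin K j i := by unfold bin; ring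
    rw [h2]
    exact (edgeIdeal K G).neg_mem this

theorem step {n : ℕ} (G : SimpleGraph (Fin n)) (i v j : Fin n) (b : Bool)
    (P : MvPolynomial (Fin (n + n)) K) (h1 : P * bin K i v ∈ edgeIdeal K G)
    (h2 : G.Adj v j) : X (zv b v) * P * bin K i j ∈ edgeIdeal K G := by
  have h3 : X (zv b v) * P * bin K i j
      = X (zv b j) * (P * bin K i v) + (X (zv b i) * P) * bin K v j := by
    unfold bin zv
    cases b <;> simp <;> ring
  rw [h3]
  exact (edgeIdeal K G).add_mem ((edgeIdeal K G).mul_mem_left _ h1)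
    ((edgeIdeal K G).mul_mem_left _ (bin_mem G v j h2))

theorem xv_lt_yv {n : ℕ} (i j : Fin n) : xv i < yv j := by
  unfold xv yv
  rw [Fin.lt_def]
  simp
  omega

theorem xv_lt_xv {n : ℕ} {i j : Fin n} : xv i < xv j ↔ i < j := by
  unfold xv
  rw [Fin.lt_def, Fin.lt_def]
  simp

theorem xv_inj {n : ℕ} {i j : Fin n} : xv i = xv j ↔ i = j := by
  unfold xv
  simp [Fin.ext_iff]

theorem yv_inj {n : ℕ} {i j : Fin n} : yv i = yv j ↔ i = j := by
  unfold yv
  simp [Fin.ext_iff]

theorem zv_ne {n : ℕ} {b b' : Bool} {i j : Fin n} (h : i ≠ j) : zv b i ≠ zv b' j := by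
  unfold zv
  cases b <;> cases b' <;> simp [xv_inj, yv_inj, h, (xv_lt_yv i j).ne, (xv_lt_yv j i).ne']

theorem main_mem {n : ℕ} (G : SimpleGraph (Fin n)) (i j : Fin n) (hij : i < j)
    (s : Finset (Fin (n + n))) (hs : ∀ w ∈ s, ∃ v b, w = zv b v ∧ v ≠ i ∧ v ≠ j)
    (h : (∏ w ∈ s, X w) * bin K i j ∈ edgeIdeal K G) :
    ∏ w ∈ insert (xv i) (insert (yv j) s), (X w : MvPolynomial (Fin (n + n)) K) ∈
      initialIdeal (edgeIdeal K G) := by
  have hx : ∀ v : Fin n, xv v = zv true v := fun v => by simp [zv]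
  have hy : ∀ v : Fin n, yv v = zv false v := fun v => by simp [zv]
  have n1 : ∀ b, zv b i ∉ s := by
    intro b hb
    obtain ⟨v, b', h1, h2, _⟩ := hs _ hb
    exact zv_ne (Ne.symm h2) h1
  have n2 : ∀ b, zv b j ∉ s := by
    intro b hb
    obtain ⟨v, b', h1, _, h2⟩ := hs _ hb
    exact zv_ne (Ne.symm h2) h1
  have e1 : xv i ∉ insert (yv j) s := by
    rw [Finset.mem_insert, not_or]
    exact ⟨(xv_lt_yv i j).ne, by rw [hx]; exact n1 _⟩
  have e2 : yv j ∉ s := by rw [hy]; exact n2 _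
  have e3 : xv j ∉ insert (yv i) s := by
    rw [Finset.mem_insert, not_or]
    exact ⟨(xv_lt_yv j i).ne, by rw [hx]; exact n2 _⟩
  have e4 : yv i ∉ s := by rw [hy]; exact n1 _
  apply lead_mem' _ _ (insert (xv j) (insert (yv i) s)) (xv i) (Finset.mem_insert_self _ _)
  · rw [Finset.mem_insert, Finset.mem_insert, not_or, not_or]
    refine ⟨?_, (xv_lt_yv i i).ne, ?_⟩
    · exact fun hh => hij.ne (xv_inj.1 hh)
    · rw [hx]; exact n1 _
  · intro t ht
    simp only [Finset.mem_insert]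
    have a1 : t ≠ xv i := ht.ne
    have a2 : t ≠ xv j := (ht.trans (xv_lt_xv.2 hij)).ne
    have a3 : t ≠ yv i := (ht.trans (xv_lt_yv i i)).ne
    have a4 : t ≠ yv j := (ht.trans (xv_lt_yv i j)).ne
    simp [a1, a2, a3, a4]
  · rw [Finset.prod_insert e1, Finset.prod_insert e2, Finset.prod_insert e3,
      Finset.prod_insert e4]
    have : (X (xv i) * (X (yv j) * ∏ w ∈ s, X w) - X (xv j) * (X (yv i) * ∏ w ∈ s, X w) :
        MvPolynomial (Fin (n + n)) K) = (∏ w ∈ s, X w) * bin K i j := by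
      unfold bin; ring
    rw [this]
    exact h

theorem g2 {n : ℕ} (G : SimpleGraph (Fin n)) (i j : Fin n) (hij : i < j) (h : G.Adj i j) :
    ∏ w ∈ insert (xv i) (insert (yv j) ∅), (X w : MvPolynomial (Fin (n + n)) K) ∈
      initialIdeal (edgeIdeal K G) := by
  apply main_mem G i j hij ∅ (by simp)
  simpa using bin_mem G i j h

theorem g3 {n : ℕ} (G : SimpleGraph (Fin n)) (i v j : Fin n) (b : Bool) (hij : i < j)
    (h1 : G.Adj i v) (h2 : G.Adj v j) :
    ∏ w ∈ insert (xv i) (insert (yv j) {zv b v}), (X w : MvPolynomial (Fin (n + n)) K) ∈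
      initialIdeal (edgeIdeal K G) := by
  apply main_mem G i j hij {zv b v}
  · intro w hw
    rw [Finset.mem_singleton] at hw
    exact ⟨v, b, hw, h1.ne', h2.ne⟩
  · rw [Finset.prod_singleton]
    have := step (K := K) G i v j b 1 (by simpa using bin_mem G i v h1) h2
    simpa using this

theorem g4 {n : ℕ} (G : SimpleGraph (Fin n)) (i v v' j : Fin n) (b b' : Bool) (hij : i < j)
    (h1 : G.Adj i v) (h2 : G.Adj v v') (h3 : G.Adj v' j) (hv : v ≠ j) (hv' : v' ≠ i) :
    ∏ w ∈ insert (xv i) (insert (yv j) {zv b v, zv b' v'}), (X w : MvPolynomial (Fin (n + n)) K) ∈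
      initialIdeal (edgeIdeal K G) := by
  apply main_mem G i j hij {zv b v, zv b' v'}
  · intro w hw
    rw [Finset.mem_insert, Finset.mem_singleton] at hw
    rcases hw with hw | hw
    · exact ⟨v, b, hw, h1.ne', hv⟩
    · exact ⟨v', b', hw, hv', h3.ne⟩
  · rw [Finset.prod_pair (zv_ne h2.ne)]
    have e1 : X (zv b v) * bin K i v' ∈ edgeIdeal K G := by
      have := step (K := K) G i v v' b 1 (by simpa using bin_mem G i v h1) h2
      simpa using this
    have := step (K := K) G i v' j b' (X (zv b v)) e1 h3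
    rwa [mul_comm (X (zv b' v'))] at this

end

end Pool.K4H87.BE
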